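import Pool.Agent.W732.Ud.Stm

set_option autoImplicit false

namespace Pool.Agent.W177.Ud.SP

open Metric Set Filter Topology Complex
open Pool.Agent.W732.Ud

theorem den_pos {a w : ℂ} (ha : ‖a‖ < 1) (hw : ‖w‖ < 1) : 1 - starRingEnd ℂ a * w ≠ 0 := by
  intro h
  have h1 : starRingEnd ℂ a * w = 1 := (sub_eq_zero.mp h).symm
  have h2 : ‖starRingEnd ℂ a * w‖ = 1 := by rw [h1]; simp
  rw [norm_mul, RCLike.norm_conj] at h2
  have h3 : ‖a‖ * ‖w‖ < 1 := by
    calc ‖a‖ * ‖w‖ ≤ ‖a‖ * 1 := mul_le_mul_of_nonneg_left hw.le (norm_nonneg _)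
      _ = ‖a‖ := mul_one _
      _ < 1 := ha
  linarith

theorem ph_le_one {a w : ℂ} (ha : ‖a‖ < 1) (hw : ‖w‖ < 1) :
    ‖(w - a) / (1 - starRingEnd ℂ a * w)‖ ≤ 1 := by
  have hd := den_pos ha hw
  rw [norm_div, div_le_one (norm_pos_iff.mpr hd)]
  have h1 : ‖w - a‖ ^ 2 ≤ ‖1 - starRingEnd ℂ a * w‖ ^ 2 := by
    have ha2 : ‖a‖ ^ 2 = a.re ^ 2 + a.im ^ 2 := by
      rw [Complex.sq_norm, Complex.normSq_apply]; ring
    have hw2 : ‖w‖ ^ 2 = w.re ^ 2 + w.im ^ 2 := by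
      rw [Complex.sq_norm, Complex.normSq_apply]; ring
    have ha3 : a.re ^ 2 + a.im ^ 2 ≤ 1 := by
      rw [← ha2]; nlinarith [norm_nonneg a]
    have hw3 : w.re ^ 2 + w.im ^ 2 ≤ 1 := by
      rw [← hw2]; nlinarith [norm_nonneg w]
    rw [Complex.sq_norm, Complex.sq_norm, Complex.normSq_apply, Complex.normSq_apply]
    simp only [Complex.sub_re, Complex.sub_im, Complex.one_re, Complex.one_im, Complex.mul_re,
      Complex.mul_im, Complex.conj_re, Complex.conj_im]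
    nlinarith [mul_nonneg (sub_nonneg.mpr ha3) (sub_nonneg.mpr hw3)]
  exact le_of_sq_le_sq h1 (norm_nonneg _)

theorem main : S_mt → S_sp := by
  intro hmt E E' _ _ _ _ _ _ D H U ψ G P hA x₀ hx₀ Q hQH hQ
  by_contra hcon
  push Not at hcon
  -- the sequence
  have hQ' : IsCompact (insert x₀ Q) := hQ.insert x₀
  have hQ'H : insert x₀ Q ⊆ H := Set.insert_subset hx₀ hQH
  have hfreq : ∀ j : ℕ, ∃ᶠ n in atTop, (∃ x ∈ Q, 1 - 1 / ((j : ℝ) + 2) < ph (P (ψ n x₀)) (P (ψ n x)))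
      ∧ insert x₀ Q ⊆ U n := by
    intro j
    have hj : (0 : ℝ) < 1 - 1 / ((j : ℝ) + 2) := by
      rw [sub_pos, div_lt_one (by positivity)]
      have : (0 : ℝ) ≤ (j : ℝ) := by positivity
      linarith
    have hj1 : 1 - 1 / ((j : ℝ) + 2) < 1 := by
      have : (0 : ℝ) < 1 / ((j : ℝ) + 2) := by positivity
      linarith
    exact (hcon _ hj hj1).and_eventually (hA.exh.exh _ hQ'H hQ')
  obtain ⟨m, hm, hm2⟩ := extraction_forall_of_frequently hfreq
  choose hm3 hm4 using hm2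
  choose y hyQ hy using hm3
  -- the functions
  let u : ℕ → Fin 1 → E' → ℂ := fun j _ x =>
    (P (ψ (m j) x) - P (ψ (m j) x₀)) / (1 - starRingEnd ℂ (P (ψ (m j) x₀)) * P (ψ (m j) x))
  have hP1 : ∀ j, ∀ x ∈ U (m j), ‖P (ψ (m j) x)‖ < 1 := fun j x hx => hA.mP _ (hA.mψ _ hx)
  have hP0 : ∀ j, ‖P (ψ (m j) x₀)‖ < 1 := fun j => hP1 j x₀ (hm4 j (Set.mem_insert _ _))
  have hexh : Exh H (fun j => U (m j)) :=
    { oH := hA.exh.oH
      oU := fun n => hA.exh.oU _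
      sub := fun n => hA.exh.sub _
      exh := fun K hK hKc => hm.tendsto_atTop.eventually (hA.exh.exh K hK hKc) }
  obtain ⟨s, Φ, hs, hΦd, hΦb, hΦl⟩ := hmt E' H (fun j => U (m j)) hexh 1 1 u
    (by
      intro j i
      have h1 : DifferentiableOn ℂ (fun x => P (ψ (m j) x)) (U (m j)) :=
        hA.dP.comp (hA.dψ _) (hA.mψ _)
      have h2 : DifferentiableOn ℂ (fun x => 1 - starRingEnd ℂ (P (ψ (m j) x₀)) * P (ψ (m j) x))
          (U (m j)) := (differentiableOn_const _).sub (h1.const_mul _)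
      have h3 := (h1.sub_const (P (ψ (m j) x₀))).fun_mul
        (h2.fun_inv (fun x hx => den_pos (hP0 j) (hP1 j x hx)))
      refine h3.congr ?_
      intro x _
      exact div_eq_mul_inv _ _)
    (by
      intro j i x hx
      exact ph_le_one (hP0 j) (hP1 j x hx))
  have h0 : Φ 0 x₀ = 0 := by
    have h1 := (hΦl 0 _ hQ'H hQ').tendsto_at (Set.mem_insert x₀ Q)
    have h2 : (fun n => u (s n) 0 x₀) = fun _ => (0 : ℂ) := by
      funext n
      change (P (ψ (m (s n)) x₀) - P (ψ (m (s n)) x₀)) / _ = 0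
      rw [sub_self, zero_div]
    rw [h2] at h1
    exact (tendsto_nhds_unique h1 tendsto_const_nhds)
  obtain ⟨x, hxQ, t, ht, hxt⟩ := hQ.tendsto_subseq (x := fun n => y (s n)) (fun n => hyQ (s n))
  have hcont : ContinuousWithinAt (Φ 0) Q x :=
    ((hΦd 0).continuousOn.mono hQH) x hxQ
  have hlim : Tendsto (fun n => u (s (t n)) 0 (y (s (t n)))) atTop (𝓝 (Φ 0 x)) := by
    have h1 : TendstoUniformlyOn (fun n => u (s (t n)) 0) (Φ 0) atTop Q := by
      intro v hv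
      exact ht.tendsto_atTop.eventually (hΦl 0 Q hQH hQ v hv)
    refine h1.tendstoLocallyUniformlyOn.tendsto_comp hcont hxQ ?_
    exact tendsto_nhdsWithin_iff.mpr ⟨hxt, Eventually.of_forall fun n => hyQ _⟩
  have hge : 1 ≤ ‖Φ 0 x‖ := by
    have h1 : Tendsto (fun n : ℕ => 1 - 1 / (((s (t n) : ℕ) : ℝ) + 2)) atTop (𝓝 (1 - 0)) := by
      refine tendsto_const_nhds.sub ?_
      have h2 : Tendsto (fun n : ℕ => ((s (t n) : ℕ) : ℝ) + 2) atTop atTop :=
        tendsto_atTop_add_const_right _ _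
          (tendsto_natCast_atTop_atTop.comp ((hs.comp ht).tendsto_atTop))
      exact h2.const_div_atTop 1
    rw [sub_zero] at h1
    refine le_of_tendsto_of_tendsto h1 hlim.norm (Eventually.of_forall fun n => ?_)
    exact (hy (s (t n))).le
  have hmax : IsMaxOn (norm ∘ Φ 0) H x := by
    intro z hz
    exact (hΦb 0 z hz).trans hge
  have hfin := Complex.norm_eqOn_of_isPreconnected_of_isMaxOn hA.cH hA.exh.oH (hΦd 0) (hQH hxQ)
    hmax hx₀
  have h3 : ‖Φ 0 x₀‖ = ‖Φ 0 x‖ := hfin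
  rw [h0, norm_zero] at h3
  linarith

end Pool.Agent.W177.Ud.SP
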